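import Pool.Agent.Q293.HaloAut
import Pool.Agent.Q293.HaloHyper
import Pool.Agent.Q293.HaloAmen

/-!
# Halo products over sofic groups

Relational structures (`Sig`, `Str`, `Emb`), halos (`Halo`: functors from relational structures
with embeddings to groups, with injective values on morphisms and finitary), invariant structures
(`Invariant`), halo products `H(X) ⋊ G` (`Halo.Product`), sofic actions on relational structures
(`SoficAction`), actions with amenable point stabilizers (`AmenableStabilizers`) and the group of
finitary automorphisms of the free group on `X` (`autFin`) are defined in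
`Pool.Agent.Q293.HaloDefs`, `Pool.Agent.Q293.HaloAmen` and `Pool.Agent.Q293.HaloAut`.

1. If `G` is sofic, `G` acts on the relational structure `X` by automorphisms, the action is sofic
   and `H` is a halo whose values on finite structures are sofic (hyperlinear), then the halo
   product `H(X) ⋊ G` is sofic (hyperlinear).
2. Every action of a sofic group with amenable point stabilizers on a relational structure (with
   arbitrarily many relations) is sofic.
3. Free groups are sofic and all their actions on relational structures are sofic.
4. Example: the semidirect product of the group of finitary automorphisms of the free group on `X`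
   with `G` is sofic if `G` is sofic and acts on the set `X` with amenable point stabilizers, or if
   `G` is free and acts on `X` in any way.
-/

namespace Pool.Agent.Q293.Old.HaloProducts

open Pool.Agent.H21R2 Pool.Agent.Q293.HP

/-- The permutation automorphism of the free group on `X` given by `g`. -/
def permAut {X G : Type} [Group G] [MulAction G X] (g : G) : MulAut (FreeGroup X) :=
  FreeGroup.freeGroupCongr (MulAction.toPerm g)

theorem aut_aux {X G : Type} [Group G] [MulAction G X] (hG : IsSofic G)
    (hs : SoficAction (S := emptySig) (X := X) (fun l => l.elim) G)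
    (φ : G →* MulAut (autFin X))
    (hφ : ∀ (g : G) (u : autFin X), ((φ g u : autFin X) : MulAut (FreeGroup X)) =
      permAut g * (u : MulAut (FreeGroup X)) * (permAut g)⁻¹) :
    IsSofic (autFin X ⋊[φ] G) := by
  have hr : Invariant (S := emptySig) (X := X) (fun l => l.elim) G := fun g l => l.elim
  have h1 := sofic_product autHalo hr hG hs (fun B hB t => isSofic_autFin hB)
  have h2 : φ = autHalo.act hr := by
    apply MonoidHom.ext
    intro g
    apply MulEquiv.ext
    intro u
    apply Subtype.ext
    rw [hφ]
    apply MulEquiv.toMonoidHom_injective
    apply FreeGroup.ext_hom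
    intro x
    obtain ⟨x', rfl⟩ : ∃ x', g • x' = x := ⟨g⁻¹ • x, smul_inv_smul g x⟩
    have e1 : (permAut (X := X) g) (FreeGroup.of x') = FreeGroup.of (g • x') := FreeGroup.map.of
    have e2 : (permAut (X := X) g)⁻¹ (FreeGroup.of (g • x')) = FreeGroup.of x' := by
      rw [← e1]
      exact (permAut (X := X) g).symm_apply_apply _
    show (permAut g) (u.1 ((permAut g)⁻¹ (FreeGroup.of (g • x')))) =
      extHom (fun y : X => g • y) (u.1).toMonoidHom (FreeGroup.of (g • x'))
    rw [e2, extHom_of (f := fun y : X => g • y) (MulAction.injective g)]
    rfl
  rw [h2]
  exact h1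

theorem result :
    -- 1. halo products over sofic actions of sofic groups
    (∀ (S : Sig) (X : Type) (r : Str S X) (G : Type) [Group G] [MulAction G X]
      (hr : Invariant r G) (H : Halo S), IsSofic G → SoficAction r G →
      ((∀ (B : Type) (_ : Finite B) (t : Str S B), IsSofic (H.obj t)) →
        IsSofic (H.Product G hr)) ∧
      ((∀ (B : Type) (_ : Finite B) (t : Str S B), IsHyperlinear (H.obj t)) →
        IsHyperlinear (H.Product G hr))) ∧
    -- 2. actions of sofic groups with amenable point stabilizers
    (∀ (S : Sig) (X : Type) (r : Str S X) (G : Type) [Group G] [MulAction G X],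
      Invariant r G → IsSofic G → AmenableStabilizers G X → SoficAction r G) ∧
    -- 3. actions of free groups
    (∀ (G : Type) [Group G], (∃ ι : Type, Nonempty (G ≃* FreeGroup ι)) →
      IsSofic G ∧ ∀ (S : Sig) (X : Type) (r : Str S X) [MulAction G X],
        Invariant r G → SoficAction r G) ∧
    -- 4. finitary automorphisms of free groups
    (∀ (X G : Type) [Group G] [MulAction G X] (φ : G →* MulAut (autFin X)),
      (∀ (g : G) (u : autFin X), ((φ g u : autFin X) : MulAut (FreeGroup X)) =
        permAut g * (u : MulAut (FreeGroup X)) * (permAut g)⁻¹) →
      (IsSofic G ∧ AmenableStabilizers G X) ∨ (∃ ι : Type, Nonempty (G ≃* FreeGroup ι)) →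
      IsSofic (autFin X ⋊[φ] G)) := by
  refine ⟨?_, ?_, ?_, ?_⟩
  · intro S X r G _ _ hr H hG ha
    exact ⟨sofic_product H hr hG ha, hyper_product H hr hG ha⟩
  · intro S X r G _ _ hr hG ha
    exact soficAction_of_amenable hr hG ha
  · intro G _ h
    exact free_case h
  · intro X G _ _ φ hφ h
    rcases h with ⟨hG, ha⟩ | h
    · exact aut_aux hG (soficAction_of_amenable (fun g l => l.elim) hG ha) φ hφ
    · exact aut_aux (free_case h).1 ((free_case h).2 emptySig X _ fun g l => l.elim) φ hφ

end Pool.Agent.Q293.Old.HaloProducts
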